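import Pool.Agent.Y19.TP.Stm

/-! # TP-CNT: roots and critical points in a ball, tame case -/

set_option autoImplicit false

namespace Pool.Agent.Y65.TP

open Polynomial Pool.Agent.Y19.TP
open scoped Classical

section

variable {U : Type} [NormedField U] [IsUltrametricDist U]

/-- the weight of a coefficient -/
noncomputable def wt (r : ℝ) (P : U[X]) (m : ℕ) : ℝ := ‖P.coeff m‖ * r ^ m

/-- the last coefficient of maximal weight -/
def TopI (r : ℝ) (P : U[X]) (k : ℕ) : Prop :=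
  0 < wt r P k ∧ (∀ m, wt r P m ≤ wt r P k) ∧ ∀ m, k < m → wt r P m < wt r P k

omit [IsUltrametricDist U] in
lemma TopI.unique {r : ℝ} {P : U[X]} {k k' : ℕ} (h : TopI r P k) (h' : TopI r P k') : k = k' := by
  rcases lt_trichotomy k k' with hlt | heq | hgt
  · exact absurd (h.2.2 k' hlt) (not_lt.2 (h'.2.1 k))
  · exact heq
  · exact absurd (h'.2.2 k hgt) (not_lt.2 (h.2.1 k'))

lemma norm_sub_le_max' (x y : U) : ‖x - y‖ ≤ max ‖x‖ ‖y‖ := by
  rw [sub_eq_add_neg]
  refine (IsUltrametricDist.norm_add_le_max x (-y)).trans ?_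
  rw [norm_neg]

lemma norm_sub_eq_left {x y : U} (h : ‖y‖ < ‖x‖) : ‖x - y‖ = ‖x‖ := by
  apply le_antisymm
  · refine (norm_sub_le_max' x y).trans ?_
    exact max_le le_rfl h.le
  · have h1 : ‖x‖ ≤ max ‖x - y‖ ‖y‖ := by
      have := IsUltrametricDist.norm_add_le_max (x - y) y
      rwa [sub_add_cancel] at this
    rcases le_max_iff.1 h1 with h2 | h2
    · exact h2
    · exact absurd h (not_lt.2 h2)

lemma norm_sub_eq_right {x y : U} (h : ‖x‖ < ‖y‖) : ‖x - y‖ = ‖y‖ := by
  rw [← norm_neg, neg_sub]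
  exact norm_sub_eq_left h

/-- the bound for the coefficients of the product -/
lemma wt_mul_succ {r : ℝ} (hr : 0 < r) (P : U[X]) (a : U) (j : ℕ) :
    wt r ((X - C a) * P) (j + 1) ≤ max (r * wt r P j) (‖a‖ * wt r P (j + 1)) := by
  have e : ((X - C a) * P).coeff (j + 1) = P.coeff j - a * P.coeff (j + 1) := by
    rw [sub_mul, coeff_sub, coeff_X_mul, coeff_C_mul]
  unfold wt
  rw [e]
  have h1 := norm_sub_le_max' (P.coeff j) (a * P.coeff (j + 1))
  have h2 : 0 < r ^ (j + 1) := by positivity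
  rcases le_max_iff.1 h1 with h3 | h3
  · apply le_max_of_le_left
    calc ‖P.coeff j - a * P.coeff (j + 1)‖ * r ^ (j + 1) ≤ ‖P.coeff j‖ * r ^ (j + 1) :=
          mul_le_mul_of_nonneg_right h3 h2.le
      _ = r * (‖P.coeff j‖ * r ^ j) := by ring
  · apply le_max_of_le_right
    calc ‖P.coeff j - a * P.coeff (j + 1)‖ * r ^ (j + 1) ≤
          ‖a * P.coeff (j + 1)‖ * r ^ (j + 1) := mul_le_mul_of_nonneg_right h3 h2.le
      _ = ‖a‖ * (‖P.coeff (j + 1)‖ * r ^ (j + 1)) := by rw [norm_mul]; ring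

omit [IsUltrametricDist U] in
lemma wt_mul_zero {r : ℝ} (P : U[X]) (a : U) :
    wt r ((X - C a) * P) 0 = ‖a‖ * wt r P 0 := by
  have e : ((X - C a) * P).coeff 0 = -(a * P.coeff 0) := by
    rw [sub_mul, coeff_sub, coeff_C_mul]
    simp
  unfold wt
  rw [e, norm_neg, norm_mul]
  ring

lemma wt_mul_eq1 {r : ℝ} (hr : 0 < r) (P : U[X]) (a : U) (j : ℕ)
    (h : ‖a‖ * wt r P (j + 1) < r * wt r P j) :
    wt r ((X - C a) * P) (j + 1) = r * wt r P j := by
  have e : ((X - C a) * P).coeff (j + 1) = P.coeff j - a * P.coeff (j + 1) := by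
    rw [sub_mul, coeff_sub, coeff_X_mul, coeff_C_mul]
  unfold wt at h ⊢
  have h2 : 0 < r ^ (j + 1) := by positivity
  have h3 : ‖a * P.coeff (j + 1)‖ < ‖P.coeff j‖ := by
    rw [norm_mul]
    apply lt_of_mul_lt_mul_right _ h2.le
    calc ‖a‖ * ‖P.coeff (j + 1)‖ * r ^ (j + 1) = ‖a‖ * (‖P.coeff (j + 1)‖ * r ^ (j + 1)) := by ring
      _ < r * (‖P.coeff j‖ * r ^ j) := h
      _ = ‖P.coeff j‖ * r ^ (j + 1) := by ring
  rw [e, norm_sub_eq_left h3]
  ring

lemma wt_mul_eq2 {r : ℝ} (hr : 0 < r) (P : U[X]) (a : U) (j : ℕ)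
    (h : r * wt r P j < ‖a‖ * wt r P (j + 1)) :
    wt r ((X - C a) * P) (j + 1) = ‖a‖ * wt r P (j + 1) := by
  have e : ((X - C a) * P).coeff (j + 1) = P.coeff j - a * P.coeff (j + 1) := by
    rw [sub_mul, coeff_sub, coeff_X_mul, coeff_C_mul]
  unfold wt at h ⊢
  have h2 : 0 < r ^ (j + 1) := by positivity
  have h3 : ‖P.coeff j‖ < ‖a * P.coeff (j + 1)‖ := by
    rw [norm_mul]
    apply lt_of_mul_lt_mul_right _ h2.le
    calc ‖P.coeff j‖ * r ^ (j + 1) = r * (‖P.coeff j‖ * r ^ j) := by ring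
      _ < ‖a‖ * (‖P.coeff (j + 1)‖ * r ^ (j + 1)) := h
      _ = ‖a‖ * ‖P.coeff (j + 1)‖ * r ^ (j + 1) := by ring
  rw [e, norm_sub_eq_right h3, norm_mul]
  ring

lemma TopI.mul_in {r : ℝ} (hr : 0 < r) {P : U[X]} {k : ℕ} (h : TopI r P k) {a : U} (ha : ‖a‖ ≤ r) :
    TopI r ((X - C a) * P) (k + 1) := by
  obtain ⟨h0, h1, h2⟩ := h
  have hw : ∀ m, 0 ≤ wt r P m := fun m => by unfold wt; positivity
  have hk : ‖a‖ * wt r P (k + 1) < r * wt r P k := by
    calc ‖a‖ * wt r P (k + 1) ≤ r * wt r P (k + 1) := mul_le_mul_of_nonneg_right ha (hw _)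
      _ < r * wt r P k := mul_lt_mul_of_pos_left (h2 _ (by omega)) hr
  have e := wt_mul_eq1 hr P a k hk
  rw [TopI, e]
  refine ⟨mul_pos hr h0, fun m => ?_, fun m hm => ?_⟩
  · rcases m with _ | m
    · rw [wt_mul_zero]
      exact mul_le_mul ha (h1 0) (hw 0) hr.le
    · refine (wt_mul_succ hr P a m).trans (max_le ?_ ?_)
      · exact mul_le_mul_of_nonneg_left (h1 m) hr.le
      · exact mul_le_mul ha (h1 _) (hw _) hr.le
  · rcases m with _ | m
    · omega
    · refine lt_of_le_of_lt (wt_mul_succ hr P a m) (max_lt ?_ ?_)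
      · exact mul_lt_mul_of_pos_left (h2 m (by omega)) hr
      · calc ‖a‖ * wt r P (m + 1) ≤ r * wt r P (m + 1) := mul_le_mul_of_nonneg_right ha (hw _)
          _ < r * wt r P k := mul_lt_mul_of_pos_left (h2 _ (by omega)) hr

lemma TopI.mul_out {r : ℝ} (hr : 0 < r) {P : U[X]} {k : ℕ} (h : TopI r P k) {a : U}
    (ha : r < ‖a‖) : TopI r ((X - C a) * P) k := by
  obtain ⟨h0, h1, h2⟩ := h
  have hw : ∀ m, 0 ≤ wt r P m := fun m => by unfold wt; positivity
  have ha0 : 0 < ‖a‖ := hr.trans ha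
  have hra : r * wt r P k < ‖a‖ * wt r P k := mul_lt_mul_of_pos_right ha h0
  have e : wt r ((X - C a) * P) k = ‖a‖ * wt r P k := by
    rcases k with _ | k
    · exact wt_mul_zero P a
    · apply wt_mul_eq2 hr P a k
      exact lt_of_le_of_lt (mul_le_mul_of_nonneg_left (h1 k) hr.le) hra
  rw [TopI, e]
  refine ⟨mul_pos ha0 h0, fun m => ?_, fun m hm => ?_⟩
  · rcases m with _ | m
    · rw [wt_mul_zero]
      exact mul_le_mul_of_nonneg_left (h1 0) ha0.le
    · refine (wt_mul_succ hr P a m).trans (max_le ?_ ?_)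
      · exact (mul_le_mul_of_nonneg_left (h1 m) hr.le).trans hra.le
      · exact mul_le_mul_of_nonneg_left (h1 _) ha0.le
  · rcases m with _ | m
    · omega
    · refine lt_of_le_of_lt (wt_mul_succ hr P a m) (max_lt ?_ ?_)
      · exact lt_of_le_of_lt (mul_le_mul_of_nonneg_left (h1 m) hr.le) hra
      · exact mul_lt_mul_of_pos_left (h2 _ hm) ha0

lemma TopI.prod {r : ℝ} (hr : 0 < r) (w : U) (s : Multiset U) :
    TopI r (s.map (fun a => X - C (a - w))).prod
      (s.filter (fun z : U => ‖z - w‖ ≤ r)).card := by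
  induction s using Multiset.induction_on with
  | empty =>
    rw [Multiset.map_zero, Multiset.prod_zero, Multiset.filter_zero, Multiset.card_zero]
    have e : ∀ m, 0 < m → wt r (1 : U[X]) m = 0 := by
      intro m hm
      unfold wt
      rw [coeff_one, if_neg (by omega)]
      simp
    have e0 : wt r (1 : U[X]) 0 = 1 := by
      unfold wt
      simp
    rw [TopI, e0]
    refine ⟨one_pos, fun m => ?_, fun m hm => ?_⟩
    · rcases Nat.eq_zero_or_pos m with h | h
      · rw [h, e0]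
      · rw [e m h]; exact zero_le_one
    · rw [e m hm]; exact one_pos
  | cons a s ih =>
    rw [Multiset.map_cons, Multiset.prod_cons]
    by_cases h : ‖a - w‖ ≤ r
    · rw [Multiset.filter_cons_of_pos (p := fun z : U => ‖z - w‖ ≤ r) s h, Multiset.card_cons]
      exact ih.mul_in hr h
    · rw [Multiset.filter_cons_of_neg (p := fun z : U => ‖z - w‖ ≤ r) s h]
      exact ih.mul_out hr (not_le.1 h)

lemma TopI.C_mul {r : ℝ} {P : U[X]} {k : ℕ} (h : TopI r P k) {c : U} (hc : c ≠ 0) :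
    TopI r (C c * P) k := by
  have e : ∀ m, wt r (C c * P) m = ‖c‖ * wt r P m := by
    intro m
    unfold wt
    rw [coeff_C_mul, norm_mul]
    ring
  have hc0 : 0 < ‖c‖ := norm_pos_iff.2 hc
  obtain ⟨h0, h1, h2⟩ := h
  rw [TopI]
  simp only [e]
  exact ⟨mul_pos hc0 h0, fun m => mul_le_mul_of_nonneg_left (h1 m) hc0.le,
    fun m hm => mul_lt_mul_of_pos_left (h2 m hm) hc0⟩

lemma TopI.of_roots [IsAlgClosed U] {r : ℝ} (hr : 0 < r) (w : U) {f : U[X]} (hf : f ≠ 0) :
    TopI r (f.comp (X + C w)) (f.roots.filter (fun z : U => ‖z - w‖ ≤ r)).card := by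
  have h1 : f = C f.leadingCoeff * (f.roots.map (fun a => X - C a)).prod :=
    (IsAlgClosed.splits f).eq_prod_roots
  have h2 : f.comp (X + C w) =
      C f.leadingCoeff * (f.roots.map (fun a => X - C (a - w))).prod := by
    conv_lhs => rw [h1]
    rw [mul_comp, C_comp, multiset_prod_comp, Multiset.map_map]
    congr 2
    apply Multiset.map_congr rfl
    intro a _
    simp only [Function.comp_apply, sub_comp, X_comp, C_comp, map_sub]
    ring
  rw [h2]
  exact (TopI.prod hr w f.roots).C_mul (leadingCoeff_ne_zero.2 hf)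

lemma TopI.deriv {r : ℝ} (hr : 0 < r) {d : ℕ} (ht : Tame U d) {f : U[X]} (hd : f.natDegree ≤ d)
    {k : ℕ} (h : TopI r f (k + 1)) : TopI r (derivative f) k := by
  obtain ⟨h0, h1, h2⟩ := h
  have hkd : k + 1 ≤ d := by
    by_contra hc
    unfold wt at h0
    rw [coeff_eq_zero_of_natDegree_lt (by omega)] at h0
    simp at h0
  have e : wt r (derivative f) k = wt r f (k + 1) / r := by
    unfold wt
    rw [coeff_derivative, norm_mul]
    have h3 := ht (k + 1) (by omega) hkd
    push_cast at h3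
    rw [h3, mul_one, pow_succ]
    field_simp
  have e2 : ∀ m, wt r (derivative f) m ≤ wt r f (m + 1) / r := by
    intro m
    unfold wt
    rw [coeff_derivative, norm_mul, pow_succ, ← mul_assoc, mul_div_assoc, div_self hr.ne', mul_one]
    apply mul_le_mul_of_nonneg_right _ (by positivity)
    have h3 : ‖(m : U) + 1‖ ≤ 1 := by
      have := IsUltrametricDist.norm_natCast_le_one U (m + 1)
      push_cast at this
      exact this
    exact mul_le_of_le_one_right (norm_nonneg _) h3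
  rw [TopI, e]
  refine ⟨div_pos h0 hr, fun m => (e2 m).trans ?_, fun m hm => lt_of_le_of_lt (e2 m) ?_⟩
  · exact div_le_div_of_nonneg_right (h1 _) hr.le
  · exact div_lt_div_of_pos_right (h2 _ (by omega)) hr

lemma closed [IsAlgClosed U] {d : ℕ} (hd : 1 ≤ d) (ht : Tame U d) {f : U[X]}
    (hf : f.natDegree = d) (w : U) {r : ℝ} (hr : 0 < r) (hz : ∃ z : U, f.eval z = 0 ∧ ‖z - w‖ ≤ r) :
    (Multiset.filter (fun z : U => ‖z - w‖ ≤ r) (derivative f).roots).card + 1 =
      (Multiset.filter (fun z : U => ‖z - w‖ ≤ r) f.roots).card := by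
  have hf0 : f ≠ 0 := by
    rintro rfl
    rw [natDegree_zero] at hf
    omega
  have h1 := TopI.of_roots hr w hf0
  have h2 : 0 < (Multiset.filter (fun z : U => ‖z - w‖ ≤ r) f.roots).card := by
    obtain ⟨z, hz1, hz2⟩ := hz
    rw [Multiset.card_pos_iff_exists_mem]
    exact ⟨z, Multiset.mem_filter.2 ⟨(mem_roots hf0).2 hz1, hz2⟩⟩
  obtain ⟨k, hk⟩ := Nat.exists_eq_succ_of_ne_zero h2.ne'
  rw [Nat.succ_eq_add_one] at hk
  rw [hk] at h1 ⊢
  have hdeg : (f.comp (X + C w)).natDegree ≤ d := by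
    rw [natDegree_comp, natDegree_X_add_C, mul_one, hf]
  have h3 := h1.deriv hr ht hdeg
  have e : derivative (f.comp (X + C w)) = (derivative f).comp (X + C w) := by
    rw [derivative_comp]
    simp
  rw [e] at h3
  have hf'0 : derivative f ≠ 0 := by
    intro h
    rw [h, zero_comp] at h3
    have h4 := h3.1
    unfold wt at h4
    simp at h4
  have h4 := TopI.of_roots hr w hf'0
  rw [h4.unique h3]

end

theorem t_CNT : CNT := by
  intro U _ _ _ d hd ht f hf w r hr
  refine ⟨closed hd ht hf w hr, ?_⟩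
  rintro ⟨z0, hz0, hz0r⟩
  have hf0 : f ≠ 0 := by
    rintro rfl
    rw [natDegree_zero] at hf
    omega
  -- a slightly smaller closed ball with the same roots
  obtain ⟨r', hr', hr'r, hall⟩ : ∃ r' : ℝ, 0 < r' ∧ r' < r ∧
      ∀ z ∈ f.roots.toFinset ∪ (derivative f).roots.toFinset, ‖z - w‖ < r → ‖z - w‖ ≤ r' := by
    obtain ⟨S, hS⟩ : ∃ S : Finset U, S = (f.roots.toFinset ∪ (derivative f).roots.toFinset).filter
      (fun z => ‖z - w‖ < r) := ⟨_, rfl⟩
    have hzS : z0 ∈ S := by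
      rw [hS, Finset.mem_filter, Finset.mem_union]
      exact ⟨Or.inl (Multiset.mem_toFinset.2 ((mem_roots hf0).2 hz0)), hz0r⟩
    obtain ⟨z1, hz1, hmax⟩ := S.exists_max_image (fun z => ‖z - w‖) ⟨z0, hzS⟩
    have hz1r : ‖z1 - w‖ < r := by
      rw [hS, Finset.mem_filter] at hz1
      exact hz1.2
    refine ⟨max ‖z1 - w‖ (r / 2), lt_max_of_lt_right (by linarith), max_lt hz1r (by linarith), ?_⟩
    intro z hz hzr
    apply le_max_of_le_left
    apply hmax
    rw [hS, Finset.mem_filter]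
    exact ⟨hz, hzr⟩
  have e1 : Multiset.filter (fun z : U => ‖z - w‖ < r) f.roots =
      Multiset.filter (fun z : U => ‖z - w‖ ≤ r') f.roots := by
    apply Multiset.filter_congr
    intro z hz
    exact ⟨fun h => hall z (Finset.mem_union_left _ (Multiset.mem_toFinset.2 hz)) h,
      fun h => lt_of_le_of_lt h hr'r⟩
  have e2 : Multiset.filter (fun z : U => ‖z - w‖ < r) (derivative f).roots =
      Multiset.filter (fun z : U => ‖z - w‖ ≤ r') (derivative f).roots := by
    apply Multiset.filter_congr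
    intro z hz
    exact ⟨fun h => hall z (Finset.mem_union_right _ (Multiset.mem_toFinset.2 hz)) h,
      fun h => lt_of_le_of_lt h hr'r⟩
  rw [e1, e2]
  refine closed hd ht hf w hr' ⟨z0, hz0, hall z0 ?_ hz0r⟩
  exact Finset.mem_union_left _ (Multiset.mem_toFinset.2 ((mem_roots hf0).2 hz0))

end Pool.Agent.Y65.TP
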