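import Pool.Agent.Y19.TP.Stm

/-! # TP-ROLLE: tame Rolle theorem from the counts of roots and critical points in balls -/

set_option autoImplicit false

namespace Pool.Agent.Y65.TP

open Polynomial Pool.Agent.Y19.TP
open scoped Classical

section

variable {U : Type} [NormedField U] [IsUltrametricDist U]

lemma sub_le_max3 (x y z : U) : ‖x - z‖ ≤ max ‖x - y‖ ‖y - z‖ := by
  have := IsUltrametricDist.norm_add_le_max (x - y) (y - z)
  rwa [sub_add_sub_cancel] at this

/-- the class of `z` modulo distance less than `r` -/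
def cl (r : ℝ) (z : U) : Set U := {a | ‖a - z‖ < r}

lemma cl_eq_iff {r : ℝ} (hr : 0 < r) (a b : U) : cl r a = cl r b ↔ ‖a - b‖ < r := by
  constructor
  · intro h
    have h1 : a ∈ cl r a := by
      show ‖a - a‖ < r
      rw [sub_self, norm_zero]
      exact hr
    rw [h] at h1
    exact h1
  · intro h
    ext c
    show ‖c - a‖ < r ↔ ‖c - b‖ < r
    constructor
    · intro h1
      exact lt_of_le_of_lt (sub_le_max3 c a b) (max_lt h1 h)
    · intro h1
      refine lt_of_le_of_lt (sub_le_max3 c b a) (max_lt h1 ?_)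
      rw [norm_sub_rev]
      exact h

lemma count_cl {r : ℝ} (hr : 0 < r) (w z0 : U) (hz0 : ‖z0 - w‖ ≤ r) (R : Multiset U) :
    ((R.filter (fun z : U => ‖z - w‖ ≤ r)).map (cl r)).count (cl r z0) =
      (R.filter (fun z : U => ‖z - z0‖ < r)).card := by
  rw [Multiset.count_map, Multiset.filter_filter]
  congr 1
  apply Multiset.filter_congr
  intro z _
  rw [cl_eq_iff hr, norm_sub_rev z0 z]
  constructor
  · exact fun h => h.1
  · intro h
    refine ⟨h, (sub_le_max3 z z0 w).trans (max_le h.le hz0)⟩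

end

theorem t_ROLLE : CNT → ROLLE := by
  intro hC U _ _ _ _ d hd ht f hf w x hwx hw hx
  obtain ⟨r, hr⟩ : ∃ r : ℝ, r = ‖x - w‖ := ⟨_, rfl⟩
  have hr0 : 0 < r := by
    rw [hr, norm_pos_iff]
    exact sub_ne_zero.2 (Ne.symm hwx)
  rw [← hr]
  have hf0 : f ≠ 0 := by
    rintro rfl
    rw [natDegree_zero] at hf
    omega
  have hf'0 : derivative f ≠ 0 := by
    intro h
    have := natDegree_eq_zero_of_derivative_eq_zero h
    omega
  obtain ⟨R, hR⟩ : ∃ R, R = Multiset.filter (fun z : U => ‖z - w‖ ≤ r) f.roots := ⟨_, rfl⟩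
  obtain ⟨R', hR'⟩ : ∃ R', R' = Multiset.filter (fun z : U => ‖z - w‖ ≤ r) (derivative f).roots :=
    ⟨_, rfl⟩
  have hcard : R'.card + 1 = R.card := by
    rw [hR, hR']
    exact (hC U d hd ht f hf w r hr0).1 ⟨w, hw, by rw [sub_self, norm_zero]; exact hr0.le⟩
  obtain ⟨T, hT⟩ : ∃ T : Finset (Set U), T = (R.map (cl r)).toFinset := ⟨_, rfl⟩
  have hTmem : ∀ z : U, f.eval z = 0 → ‖z - w‖ ≤ r → cl r z ∈ T := by
    intro z hz hzr
    rw [hT, Multiset.mem_toFinset, Multiset.mem_map]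
    refine ⟨z, ?_, rfl⟩
    rw [hR]
    exact Multiset.mem_filter.2 ⟨(mem_roots hf0).2 hz, hzr⟩
  have hwT : cl r w ∈ T := hTmem w hw (by rw [sub_self, norm_zero]; exact hr0.le)
  have hxT : cl r x ∈ T := hTmem x hx hr.ge
  have hne : cl r w ≠ cl r x := by
    intro h
    rw [cl_eq_iff hr0, norm_sub_rev, ← hr] at h
    exact lt_irrefl _ h
  have hT2 : 1 < T.card := Finset.one_lt_card.2 ⟨_, hwT, _, hxT, hne⟩
  by_contra hcon
  push Not at hcon
  have hcov : ∀ t ∈ R'.map (cl r), t ∈ T := by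
    intro t ht'
    rw [Multiset.mem_map] at ht'
    obtain ⟨c, hc, rfl⟩ := ht'
    rw [hR', Multiset.mem_filter, mem_roots hf'0] at hc
    obtain ⟨z, hz, hzc⟩ := hcon c hc.1 hc.2
    have hcz : cl r c = cl r z := (cl_eq_iff hr0 _ _).2 hzc
    rw [hcz]
    apply hTmem z hz
    refine (sub_le_max3 z c w).trans (max_le ?_ hc.2)
    rw [norm_sub_rev]
    exact hzc.le
  have s1 : ∑ t ∈ T, (R.map (cl r)).count t = R.card := by
    rw [Multiset.sum_count_eq_card, Multiset.card_map]
    intro t ht'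
    rw [hT, Multiset.mem_toFinset]
    exact ht'
  have s2 : ∑ t ∈ T, (R'.map (cl r)).count t = R'.card := by
    rw [Multiset.sum_count_eq_card hcov, Multiset.card_map]
  have s3 : ∀ t ∈ T, (R'.map (cl r)).count t + 1 = (R.map (cl r)).count t := by
    intro t ht'
    rw [hT, Multiset.mem_toFinset, Multiset.mem_map] at ht'
    obtain ⟨z0, hz0, rfl⟩ := ht'
    rw [hR, Multiset.mem_filter, mem_roots hf0] at hz0
    rw [hR, hR', count_cl hr0 w z0 hz0.2, count_cl hr0 w z0 hz0.2]
    refine (hC U d hd ht f hf z0 r hr0).2 ⟨z0, hz0.1, ?_⟩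
    rw [sub_self, norm_zero]
    exact hr0
  have s4 : ∑ t ∈ T, ((R'.map (cl r)).count t + 1) = ∑ t ∈ T, (R.map (cl r)).count t :=
    Finset.sum_congr rfl s3
  rw [Finset.sum_add_distrib, s1, s2, Finset.sum_const, smul_eq_mul, mul_one] at s4
  omega

end Pool.Agent.Y65.TP
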