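import Pool.Agent.Y19.TP.Stm

/-! # TP-PIG: pigeonhole in the integers of a finite extension of `ℚ_p` -/

set_option autoImplicit false

namespace Pool.Agent.Y65.TP

open Polynomial Pool.Agent.Y19.TP
open scoped Classical

section

variable {p : ℕ} [hp : Fact p.Prime]

lemma int_of_norm {x : PadicAlgCl p} (hx : ‖x‖ ≤ 1) : IsIntegral ℤ_[p] x := by
  have hxF : IsIntegral ℚ_[p] x := Algebra.IsIntegral.isIntegral x
  have hm := minpoly.monic hxF
  have h1 : spectralValue (minpoly ℚ_[p] x) ≤ 1 := hx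
  rw [spectralValue_le_one_iff hm] at h1
  have h2 : minpoly ℚ_[p] x ∈ Polynomial.lifts (algebraMap ℤ_[p] ℚ_[p]) := by
    rw [Polynomial.lifts_iff_coeff_lifts]
    intro n
    exact ⟨⟨(minpoly ℚ_[p] x).coeff n, h1 n⟩, rfl⟩
  obtain ⟨Q, hQ1, -, hQ3⟩ := Polynomial.lifts_and_degree_eq_and_monic h2 hm
  refine ⟨Q, hQ3, ?_⟩
  rw [IsScalarTower.algebraMap_eq ℤ_[p] ℚ_[p] (PadicAlgCl p), ← Polynomial.eval₂_map, hQ1]
  exact minpoly.aeval ℚ_[p] x

lemma norm_of_int {a : PadicAlgCl p} (ha : IsIntegral ℤ_[p] a) : ‖a‖ ≤ 1 := by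
  have hm := minpoly.monic ha.tower_top (A := ℚ_[p])
  have h1 : spectralValue (minpoly ℚ_[p] a) ≤ 1 := by
    rw [spectralValue_le_one_iff hm]
    intro n
    rw [minpoly.isIntegrallyClosed_eq_field_fractions' ℚ_[p] ha, coeff_map]
    exact ((minpoly ℤ_[p] a).coeff n).2
  exact h1

end

theorem t_PIG : PIG := by
  intro p hp L n k hfd hn g hg
  haveI : NeZero (p ^ k) := ⟨pow_ne_zero _ hp.out.ne_zero⟩
  haveI htow : IsScalarTower ℤ_[p] L (PadicAlgCl p) :=
    IsScalarTower.of_algebraMap_eq (fun x => rfl)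
  haveI htf : Module.IsTorsionFree ℤ_[p] L := by
    rw [Module.isTorsionFree_iff_algebraMap_injective, IsScalarTower.algebraMap_eq ℤ_[p] ℚ_[p] L]
    exact (algebraMap ℚ_[p] L).injective.comp (IsFractionRing.injective ℤ_[p] ℚ_[p])
  haveI : IsIntegralClosure (integralClosure ℤ_[p] L) ℤ_[p] L :=
    integralClosure.isIntegralClosure ℤ_[p] L
  haveI hfree : Module.Free ℤ_[p] (integralClosure ℤ_[p] L) :=
    IsIntegralClosure.module_free ℤ_[p] ℚ_[p] L (integralClosure ℤ_[p] L)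
  haveI hfin : Module.Finite ℤ_[p] (integralClosure ℤ_[p] L) :=
    IsIntegralClosure.finite ℤ_[p] ℚ_[p] L (integralClosure ℤ_[p] L)
  have hrank : Module.finrank ℤ_[p] (integralClosure ℤ_[p] L) = Module.finrank ℚ_[p] L :=
    IsIntegralClosure.rank ℤ_[p] ℚ_[p] L (integralClosure ℤ_[p] L)
  obtain ⟨m, hm⟩ : ∃ m, m = Module.finrank ℤ_[p] (integralClosure ℤ_[p] L) := ⟨_, rfl⟩
  have hmn : m ≤ n := by
    rw [hm, hrank]
    exact hn
  let b := Module.finBasis ℤ_[p] (integralClosure ℤ_[p] L)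
  have hint : ∀ i, IsIntegral ℤ_[p] (⟨g i, (hg i).1⟩ : L) := by
    intro i
    have h1 : IsIntegral ℤ_[p] (algebraMap L (PadicAlgCl p) ⟨g i, (hg i).1⟩) :=
      int_of_norm (hg i).2
    exact (isIntegral_algebraMap_iff (algebraMap L (PadicAlgCl p)).injective).1 h1
  let G : Fin (p ^ (n * k) + 1) → integralClosure ℤ_[p] L := fun i => ⟨⟨g i, (hg i).1⟩, hint i⟩
  have hcard : Fintype.card (Fin (Module.finrank ℤ_[p] (integralClosure ℤ_[p] L)) → ZMod (p ^ k)) <
      Fintype.card (Fin (p ^ (n * k) + 1)) := by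
    rw [Fintype.card_fun, Fintype.card_fin, Fintype.card_fin, ZMod.card, ← hm, ← pow_mul]
    apply Nat.lt_succ_of_le
    apply Nat.pow_le_pow_right hp.out.pos
    rw [mul_comm n k]
    exact Nat.mul_le_mul_left k hmn
  obtain ⟨i, j, hij, he⟩ := Fintype.exists_ne_map_eq_of_card_lt
    (fun i : Fin (p ^ (n * k) + 1) =>
      fun t : Fin (Module.finrank ℤ_[p] (integralClosure ℤ_[p] L)) =>
        (PadicInt.toZModPow k (b.repr (G i) t) : ZMod (p ^ k))) hcard
  refine ⟨i, j, hij, ?_⟩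
  have h2 : ∀ t, ∃ u : ℤ_[p], b.repr (G i - G j) t = (p : ℤ_[p]) ^ k * u := by
    intro t
    have h3 : (PadicInt.toZModPow k (b.repr (G i) t) : ZMod (p ^ k)) =
      PadicInt.toZModPow k (b.repr (G j) t) := congrFun he t
    have h4 : b.repr (G i - G j) t ∈ RingHom.ker (PadicInt.toZModPow k : ℤ_[p] →+* ZMod (p ^ k)) := by
      rw [RingHom.mem_ker, map_sub, Finsupp.sub_apply, map_sub, h3, sub_self]
    rw [PadicInt.ker_toZModPow, Ideal.mem_span_singleton] at h4
    exact h4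
  choose u hu using h2
  obtain ⟨y, hy⟩ : ∃ y : integralClosure ℤ_[p] L, y = ∑ t, u t • b t := ⟨_, rfl⟩
  have h5 : G i - G j = ((p : ℤ_[p]) ^ k) • y := by
    rw [hy, Finset.smul_sum, ← b.sum_repr (G i - G j)]
    apply Finset.sum_congr rfl
    intro t _
    rw [hu, mul_smul]
  have h6 : g i - g j = (p : PadicAlgCl p) ^ k * (((y : integralClosure ℤ_[p] L) : L) : PadicAlgCl p) := by
    have h7 : ((((G i - G j : integralClosure ℤ_[p] L)) : L) : PadicAlgCl p) =
        ((((((p : ℤ_[p]) ^ k) • y : integralClosure ℤ_[p] L)) : L) : PadicAlgCl p) := by rw [h5]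
    have h8 : ((((G i - G j : integralClosure ℤ_[p] L)) : L) : PadicAlgCl p) = g i - g j := rfl
    rw [h8] at h7
    rw [h7, Algebra.smul_def]
    simp
  have hy1 : IsIntegral ℤ_[p] (((y : integralClosure ℤ_[p] L) : L) : PadicAlgCl p) := by
    have h9 : IsIntegral ℤ_[p] ((y : integralClosure ℤ_[p] L) : L) := y.2
    exact h9.algebraMap (B := PadicAlgCl p)
  rw [h6, norm_mul, norm_pow]
  exact mul_le_of_le_one_right (by positivity) (norm_of_int hy1)

end Pool.Agent.Y65.TP
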